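import Pool.Agent.Lib.MP_e46711_an.H69.Tools

/-!
# Module B3a: existence of maximisers
-/

open Set Filter Topology MeasureTheory
open scoped ContDiff

set_option linter.unusedSectionVars false

namespace Pool.Agent.Lib.MP_e46711_an.H69

open Pool.Agent.Lib.MP_e46711_an

section

variable {ℓ δ : ℝ} {h : ℝ → ℝ}

/-- the weight of `Inu` -/
noncomputable def wt (ℓ : ℝ) (h : ℝ → ℝ) (δ : ℝ) (z : ℝ × ℝ) : ℝ := h z.1 * om ℓ h δ z / 2

lemma wt_cont (hh : Continuous h) : Continuous (wt ℓ h δ) := by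
  unfold wt om
  fun_prop

lemma wt_pos (hpos : ∀ s, 0 < h s) (z : ℝ × ℝ) : 0 < wt ℓ h δ z := by
  unfold wt om
  have := hpos z.1
  positivity

lemma wt_Wt (ℓ : ℝ) (δ : ℝ) (hh : Continuous h) (hpos : ∀ s, 0 < h s) :
    ∃ M, Wt (muT ℓ) (wt ℓ h δ) M := by
  obtain ⟨M, hM⟩ := exists_bd ℓ (wt_cont (ℓ := ℓ) (δ := δ) hh)
  exact ⟨M, (wt_cont hh).aestronglyMeasurable, ae_of_all _ fun z => (wt_pos hpos z).le,
    hM.mono fun z hz => (le_abs_self _).trans hz⟩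

lemma wt_lower (ℓ : ℝ) (δ : ℝ) (hh : Continuous h) (hpos : ∀ s, 0 < h s) :
    ∃ m > 0, ∀ᵐ z ∂muT ℓ, 1 ≤ m * wt ℓ h δ z := by
  have hc : Continuous fun z : ℝ × ℝ => (wt ℓ h δ z)⁻¹ :=
    (wt_cont hh).inv₀ fun z => (wt_pos hpos z).ne'
  obtain ⟨M, hM⟩ := exists_bd ℓ hc
  refine ⟨|M| + 1, by positivity, hM.mono fun z hz => ?_⟩
  have h1 := wt_pos (ℓ := ℓ) (δ := δ) hpos z
  have h2 : (wt ℓ h δ z)⁻¹ ≤ |M| + 1 :=
    (le_abs_self _).trans (hz.trans (by linarith [le_abs_self M]))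
  calc (1:ℝ) = (wt ℓ h δ z)⁻¹ * wt ℓ h δ z := (inv_mul_cancel₀ h1.ne').symm
    _ ≤ _ := mul_le_mul_of_nonneg_right h2 h1.le

/-- the weight of `Bil` -/
noncomputable def wt2 (h : ℝ → ℝ) (z : ℝ × ℝ) : ℝ := h z.1 / 2

lemma wt2_Wt (ℓ : ℝ) (hh : Continuous h) (hpos : ∀ s, 0 < h s) :
    ∃ M, Wt (muT ℓ) (wt2 h) M := by
  have hc : Continuous (wt2 h) := by unfold wt2; fun_prop
  obtain ⟨M, hM⟩ := exists_bd ℓ hc
  exact ⟨M, hc.aestronglyMeasurable, ae_of_all _ fun z => (half_pos (hpos z.1)).le,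
    hM.mono fun z hz => (le_abs_self _).trans hz⟩

lemma memLp_mul {r A : ℝ × ℝ → ℝ} (hr : Continuous r) (hA : MemLp A 2 (muT ℓ)) :
    MemLp (fun z => r z * A z) 2 (muT ℓ) := by
  obtain ⟨M, hM⟩ := exists_bd ℓ hr
  refine MemLp.of_le_mul (c := M) hA (hr.aestronglyMeasurable.mul hA.aestronglyMeasurable) ?_
  filter_upwards [hM] with z hz
  rw [norm_mul]
  exact mul_le_mul_of_nonneg_right hz (norm_nonneg _)

lemma cont_r1 (hh : ContDiff ℝ ∞ h) (hpos : ∀ s, 0 < h s) :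
    Continuous fun z : ℝ × ℝ => deriv h z.1 / h z.1 * z.2 := by
  have h1 : Continuous (deriv h) := hh.continuous_deriv (by simp)
  have h2 : Continuous h := hh.continuous
  have h3 : Continuous fun z : ℝ × ℝ => deriv h z.1 / h z.1 :=
    (h1.comp continuous_fst).div (h2.comp continuous_fst) fun z => (hpos z.1).ne'
  exact h3.mul continuous_snd

lemma memLp_G1 (hh : ContDiff ℝ ∞ h) (hpos : ∀ s, 0 < h s) {V W : ℝ × ℝ → ℝ}
    (hV : MemLp V 2 (muT ℓ)) (hW : MemLp W 2 (muT ℓ)) : MemLp (G1 h V W) 2 (muT ℓ) :=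
  hV.sub (memLp_mul (cont_r1 hh hpos) hW)

lemma memLp_G2 (hh : ContDiff ℝ ∞ h) (hpos : ∀ s, 0 < h s) (hδ : 0 < δ) {W : ℝ × ℝ → ℝ}
    (hW : MemLp W 2 (muT ℓ)) : MemLp (G2 h δ W) 2 (muT ℓ) := by
  have hc : Continuous fun z : ℝ × ℝ => (δ * h z.1)⁻¹ := by
    refine Continuous.inv₀ ?_ fun z => (mul_pos hδ (hpos z.1)).ne'
    have := hh.continuous
    fun_prop
  have := memLp_mul hc hW
  refine this.congr_norm ?_ ?_
  · have h1 : G2 h δ W = fun z => (δ * h z.1)⁻¹ * W z := by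
      funext z
      simp only [G2, div_eq_inv_mul]
    rw [h1]
    exact this.aestronglyMeasurable
  · refine ae_of_all _ fun z => ?_
    simp only [G2, div_eq_inv_mul]

lemma bil_eq (hh : ContDiff ℝ ∞ h) (hpos : ∀ s, 0 < h s) (hδ : 0 < δ) {V W : ℝ × ℝ → ℝ}
    (hV : MemLp V 2 (muT ℓ)) (hW : MemLp W 2 (muT ℓ)) :
    Bil ℓ h δ V W V W = Ph (muT ℓ) (wt2 h) (G1 h V W) + Ph (muT ℓ) (wt2 h) (G2 h δ W) := by
  obtain ⟨M, hM⟩ := wt2_Wt ℓ hh.continuous hpos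
  unfold Ph
  rw [← integral_add (int_sq_wt hM (memLp_G1 hh hpos hV hW))
    (int_sq_wt hM (memLp_G2 hh hpos hδ hW))]
  unfold Bil
  refine integral_congr_ae (ae_of_all _ fun z => ?_)
  show (G1 h V W z * G1 h V W z + G2 h δ W z * G2 h δ W z) * (h z.1 / 2)
    = G1 h V W z ^ 2 * wt2 h z + G2 h δ W z ^ 2 * wt2 h z
  unfold wt2
  ring

lemma bil_nonneg (hh : ContDiff ℝ ∞ h) (hpos : ∀ s, 0 < h s) (hδ : 0 < δ) {V W : ℝ × ℝ → ℝ}
    (hV : MemLp V 2 (muT ℓ)) (hW : MemLp W 2 (muT ℓ)) : 0 ≤ Bil ℓ h δ V W V W := by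
  obtain ⟨M, hM⟩ := wt2_Wt ℓ hh.continuous hpos
  rw [bil_eq hh hpos hδ hV hW]
  exact add_nonneg (Ph_nonneg hM _) (Ph_nonneg hM _)

/-- parallelogram law for `Bil` -/
lemma bil_par (hh : ContDiff ℝ ∞ h) (hpos : ∀ s, 0 < h s) (hδ : 0 < δ) {V W V' W' : ℝ × ℝ → ℝ}
    (hV : MemLp V 2 (muT ℓ)) (hW : MemLp W 2 (muT ℓ)) (hV' : MemLp V' 2 (muT ℓ))
    (hW' : MemLp W' 2 (muT ℓ)) :
    Bil ℓ h δ (fun z => (1 / 2) * (V z + V' z)) (fun z => (1 / 2) * (W z + W' z))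
        (fun z => (1 / 2) * (V z + V' z)) (fun z => (1 / 2) * (W z + W' z))
      + Bil ℓ h δ (fun z => (1 / 2) * (V z + -1 * V' z)) (fun z => (1 / 2) * (W z + -1 * W' z))
        (fun z => (1 / 2) * (V z + -1 * V' z)) (fun z => (1 / 2) * (W z + -1 * W' z))
      = (Bil ℓ h δ V W V W + Bil ℓ h δ V' W' V' W') / 2 := by
  obtain ⟨M, hM⟩ := wt2_Wt ℓ hh.continuous hpos
  have a1 : MemLp (fun z => (1 / 2 : ℝ) * (V z + V' z)) 2 (muT ℓ) := (hV.add hV').const_mul _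
  have a2 : MemLp (fun z => (1 / 2 : ℝ) * (W z + W' z)) 2 (muT ℓ) := (hW.add hW').const_mul _
  have a3 : MemLp (fun z => (1 / 2 : ℝ) * (V z + -1 * V' z)) 2 (muT ℓ) :=
    (hV.add (hV'.const_mul (-1))).const_mul _
  have a4 : MemLp (fun z => (1 / 2 : ℝ) * (W z + -1 * W' z)) 2 (muT ℓ) :=
    (hW.add (hW'.const_mul (-1))).const_mul _
  rw [bil_eq hh hpos hδ a1 a2, bil_eq hh hpos hδ a3 a4, bil_eq hh hpos hδ hV hW,
    bil_eq hh hpos hδ hV' hW']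
  have e1 := Ph_par hM (memLp_G1 hh hpos hV hW) (memLp_G1 hh hpos hV' hW')
  have e2 := Ph_par hM (memLp_G2 hh hpos hδ hW) (memLp_G2 hh hpos hδ hW')
  have g1 : G1 h (fun z => (1 / 2) * (V z + V' z)) (fun z => (1 / 2) * (W z + W' z))
      = fun z => (1 / 2) * (G1 h V W z + G1 h V' W' z) := by
    funext z; simp only [G1]; ring
  have g2 : G1 h (fun z => (1 / 2) * (V z + -1 * V' z)) (fun z => (1 / 2) * (W z + -1 * W' z))
      = fun z => (1 / 2) * (G1 h V W z + -1 * G1 h V' W' z) := by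
    funext z; simp only [G1]; ring
  have g3 : G2 h δ (fun z => (1 / 2) * (W z + W' z))
      = fun z => (1 / 2) * (G2 h δ W z + G2 h δ W' z) := by
    funext z; simp only [G2]; ring
  have g4 : G2 h δ (fun z => (1 / 2) * (W z + -1 * W' z))
      = fun z => (1 / 2) * (G2 h δ W z + -1 * G2 h δ W' z) := by
    funext z; simp only [G2]; ring
  rw [g1, g2, g3, g4]
  linarith

/-- `Bil` is continuous -/
lemma bil_tendsto (hh : ContDiff ℝ ∞ h) (hpos : ∀ s, 0 < h s) (hδ : 0 < δ)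
    {V W : ℝ × ℝ → ℝ} {Vn Wn : ℕ → ℝ × ℝ → ℝ}
    (hV : MemLp V 2 (muT ℓ)) (hW : MemLp W 2 (muT ℓ)) (hVn : ∀ n, MemLp (Vn n) 2 (muT ℓ))
    (hWn : ∀ n, MemLp (Wn n) 2 (muT ℓ))
    (tV : Tendsto (fun n => ∫ z, (Vn n z - V z) ^ 2 ∂muT ℓ) atTop (𝓝 0))
    (tW : Tendsto (fun n => ∫ z, (Wn n z - W z) ^ 2 ∂muT ℓ) atTop (𝓝 0)) :
    Tendsto (fun n => Bil ℓ h δ (Vn n) (Wn n) (Vn n) (Wn n)) atTop (𝓝 (Bil ℓ h δ V W V W)) := by
  obtain ⟨M, hM⟩ := wt2_Wt ℓ hh.continuous hpos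
  obtain ⟨r, hr⟩ := exists_bd ℓ (cont_r1 hh hpos)
  have hc : Continuous fun z : ℝ × ℝ => (δ * h z.1)⁻¹ := by
    refine Continuous.inv₀ ?_ fun z => (mul_pos hδ (hpos z.1)).ne'
    have := hh.continuous
    fun_prop
  obtain ⟨r', hr'⟩ := exists_bd ℓ hc
  rw [bil_eq hh hpos hδ hV hW]
  have e : (fun n => Bil ℓ h δ (Vn n) (Wn n) (Vn n) (Wn n)) = fun n =>
      Ph (muT ℓ) (wt2 h) (G1 h (Vn n) (Wn n)) + Ph (muT ℓ) (wt2 h) (G2 h δ (Wn n)) := by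
    funext n
    exact bil_eq hh hpos hδ (hVn n) (hWn n)
  rw [e]
  have dV : ∀ n, MemLp (fun z => Vn n z - V z) 2 (muT ℓ) := fun n => (hVn n).sub hV
  have dW : ∀ n, MemLp (fun z => Wn n z - W z) 2 (muT ℓ) := fun n => (hWn n).sub hW
  refine Tendsto.add ?_ ?_
  · refine Ph_tendsto hM (fun n => memLp_G1 hh hpos (hVn n) (hWn n)) (memLp_G1 hh hpos hV hW) ?_
    have t1 : Tendsto (fun n => |M| * (2 * ∫ z, (Vn n z - V z) ^ 2 ∂muT ℓ)
        + |M| * (2 * r ^ 2 * ∫ z, (Wn n z - W z) ^ 2 ∂muT ℓ)) atTop (𝓝 0) := by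
      have := ((tV.const_mul 2).const_mul |M|).add ((tW.const_mul (2 * r ^ 2)).const_mul |M|)
      simpa using this
    refine squeeze_zero (fun n => Ph_nonneg hM _) (fun n => ?_) t1
    have m1 : MemLp (fun z => G1 h (Vn n) (Wn n) z - G1 h V W z) 2 (muT ℓ) :=
      (memLp_G1 hh hpos (hVn n) (hWn n)).sub (memLp_G1 hh hpos hV hW)
    refine (Ph_le hM m1).trans ?_
    rw [← mul_add]
    refine (mul_le_mul_of_nonneg_right (le_abs_self M)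
      (integral_nonneg fun z => sq_nonneg _)).trans ?_
    refine mul_le_mul_of_nonneg_left ?_ (abs_nonneg _)
    rw [← integral_const_mul, ← integral_const_mul,
      ← integral_add ((integrable_sq (dV n)).const_mul _) ((integrable_sq (dW n)).const_mul _)]
    refine integral_mono_ae (integrable_sq m1)
      (((integrable_sq (dV n)).const_mul _).add ((integrable_sq (dW n)).const_mul _)) ?_
    filter_upwards [hr] with z hz
    show (G1 h (Vn n) (Wn n) z - G1 h V W z) ^ 2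
      ≤ 2 * (Vn n z - V z) ^ 2 + 2 * r ^ 2 * (Wn n z - W z) ^ 2
    have h1 : (deriv h z.1 / h z.1 * z.2) ^ 2 ≤ r ^ 2 := by
      rw [← sq_abs]
      exact pow_le_pow_left₀ (abs_nonneg _) hz 2
    have h2 : G1 h (Vn n) (Wn n) z - G1 h V W z
        = (Vn n z - V z) - deriv h z.1 / h z.1 * z.2 * (Wn n z - W z) := by
      simp only [G1]; ring
    rw [h2]
    have h3 := mul_le_mul_of_nonneg_right h1 (sq_nonneg (Wn n z - W z))
    nlinarith [sq_nonneg ((Vn n z - V z) + deriv h z.1 / h z.1 * z.2 * (Wn n z - W z))]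
  · refine Ph_tendsto hM (fun n => memLp_G2 hh hpos hδ (hWn n)) (memLp_G2 hh hpos hδ hW) ?_
    have t1 : Tendsto (fun n => |M| * (r' ^ 2 * ∫ z, (Wn n z - W z) ^ 2 ∂muT ℓ)) atTop (𝓝 0) := by
      have := (tW.const_mul (r' ^ 2)).const_mul |M|
      simpa using this
    refine squeeze_zero (fun n => Ph_nonneg hM _) (fun n => ?_) t1
    have m1 : MemLp (fun z => G2 h δ (Wn n) z - G2 h δ W z) 2 (muT ℓ) :=
      (memLp_G2 hh hpos hδ (hWn n)).sub (memLp_G2 hh hpos hδ hW)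
    refine (Ph_le hM m1).trans ?_
    refine (mul_le_mul_of_nonneg_right (le_abs_self M)
      (integral_nonneg fun z => sq_nonneg _)).trans ?_
    refine mul_le_mul_of_nonneg_left ?_ (abs_nonneg _)
    rw [← integral_const_mul]
    refine integral_mono_ae (integrable_sq m1) ((integrable_sq (dW n)).const_mul _) ?_
    filter_upwards [hr'] with z hz
    show (G2 h δ (Wn n) z - G2 h δ W z) ^ 2 ≤ r' ^ 2 * (Wn n z - W z) ^ 2
    have h1 : ((δ * h z.1)⁻¹) ^ 2 ≤ r' ^ 2 := by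
      rw [← sq_abs]
      exact pow_le_pow_left₀ (abs_nonneg _) hz 2
    have h2 : G2 h δ (Wn n) z - G2 h δ W z = (δ * h z.1)⁻¹ * (Wn n z - W z) := by
      simp only [G2]; ring
    rw [h2, mul_pow]
    exact mul_le_mul_of_nonneg_right h1 (sq_nonneg _)

end

section

variable {p l0 l1 l3 : ℝ} (R : Ring1D p l0 l1 l3) {δ : ℝ}

lemma a2_bd : ∃ K ≥ 0, (∀ᵐ z ∂muT R.ℓ, |R.wa z.1| ≤ K) ∧ ∀ᵐ z ∂muT R.ℓ, |R.wb z.1| ≤ K := by
  obtain ⟨K, hK⟩ := R.wab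
  refine ⟨K, (R.wa0 0).trans (hK 0).1, ae_of_all _ fun z => ?_, ae_of_all _ fun z => ?_⟩
  · rw [abs_of_nonneg (R.wa0 _)]; exact (hK _).1
  · rw [abs_of_nonneg (R.wb0 _)]; exact (hK _).2

lemma wa_meas : AEStronglyMeasurable (fun z : ℝ × ℝ => R.wa z.1) (muT R.ℓ) :=
  (R.wam.comp measurable_fst).aestronglyMeasurable

lemma wb_meas : AEStronglyMeasurable (fun z : ℝ × ℝ => R.wb z.1) (muT R.ℓ) :=
  (R.wbm.comp measurable_fst).aestronglyMeasurable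

lemma lin_comb {k : ℝ × ℝ → ℝ} {K ℓ : ℝ} (hk : AEStronglyMeasurable k (muT ℓ))
    (hK : ∀ᵐ z ∂muT ℓ, |k z| ≤ K) {A B : ℝ × ℝ → ℝ} (hA : MemLp A 2 (muT ℓ))
    (hB : MemLp B 2 (muT ℓ)) (c : ℝ) :
    (∫ z, k z * ((1 / 2) * (A z + c * B z)) ∂muT ℓ) / 2
      = (1 / 2) * ((∫ z, k z * A z ∂muT ℓ) / 2 + c * ((∫ z, k z * B z ∂muT ℓ) / 2)) := by
  have i1 := int_lin hk hK (hA.integrable one_le_two)
  have i2 := int_lin hk hK (hB.integrable one_le_two)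
  have h1 : (fun z => k z * ((1 / 2) * (A z + c * B z)))
      = fun z => (1 / 2) * (k z * A z) + (1 / 2) * c * (k z * B z) := by
    funext z; ring
  rw [h1, integral_add (i1.const_mul _) (i2.const_mul _), integral_const_mul, integral_const_mul]
  ring

lemma a2_comb {A B : ℝ × ℝ → ℝ} (hA : MemLp A 2 (muT R.ℓ)) (hB : MemLp B 2 (muT R.ℓ)) (c : ℝ) :
    R.a2 (fun z => (1 / 2) * (A z + c * B z)) = (1 / 2) * (R.a2 A + c * R.a2 B) := by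
  obtain ⟨K, -, h1, h2⟩ := a2_bd R
  exact lin_comb (wa_meas R) h1 hA hB c

lemma b2_comb {A B : ℝ × ℝ → ℝ} (hA : MemLp A 2 (muT R.ℓ)) (hB : MemLp B 2 (muT R.ℓ)) (c : ℝ) :
    R.b2 (fun z => (1 / 2) * (A z + c * B z)) = (1 / 2) * (R.b2 A + c * R.b2 B) := by
  obtain ⟨K, -, h1, h2⟩ := a2_bd R
  exact lin_comb (wb_meas R) h2 hA hB c

lemma a2_tendsto {A : ℕ → ℝ × ℝ → ℝ} {B : ℝ × ℝ → ℝ} (hA : ∀ n, MemLp (A n) 2 (muT R.ℓ))
    (hB : MemLp B 2 (muT R.ℓ))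
    (h : Tendsto (fun n => ∫ z, (A n z - B z) ^ 2 ∂muT R.ℓ) atTop (𝓝 0)) :
    Tendsto (fun n => R.a2 (A n)) atTop (𝓝 (R.a2 B)) ∧
    Tendsto (fun n => R.b2 (A n)) atTop (𝓝 (R.b2 B)) := by
  obtain ⟨K, hK, h1, h2⟩ := a2_bd R
  exact ⟨(lin_tendsto (wa_meas R) h1 hK hA hB h).div_const 2,
    (lin_tendsto (wb_meas R) h2 hK hA hB h).div_const 2⟩

/-- the averages of admissible functions are bounded -/
lemma adm_bd (δ : ℝ) : ∃ B, ∀ U V W, R.Adm δ U V W → |R.a2 U| ≤ B ∧ |R.b2 U| ≤ B := by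
  have hc := R.smooth.continuous
  obtain ⟨M, hM⟩ := wt_Wt R.ℓ δ hc R.pos
  obtain ⟨m, hm, hlow⟩ := wt_lower R.ℓ δ hc R.pos
  obtain ⟨K, hK, h1, h2⟩ := a2_bd R
  refine ⟨K * ((muT R.ℓ).real univ + m) / 2, fun U V W hA => ?_⟩
  have hU := hA.1.mU
  have i0 := int_pow_wt R.hp0 R.hp1 hM hU
  have e1 : ∫ z, |U z| ∂muT R.ℓ ≤ (muT R.ℓ).real univ + m := by
    have e2 : ∫ z, |U z| ∂muT R.ℓ ≤ (muT R.ℓ).real univ
        + m * ∫ z, |U z| ^ (p + 1) * wt R.ℓ R.h δ z ∂muT R.ℓ := by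
      have e3 : (muT R.ℓ).real univ = ∫ _, (1:ℝ) ∂muT R.ℓ := by simp
      rw [e3, ← integral_const_mul, ← integral_add (integrable_const _) (i0.const_mul m)]
      refine integral_mono_ae (hU.integrable one_le_two).abs
        ((integrable_const _).add (i0.const_mul m)) ?_
      filter_upwards [hlow] with z hz
      show |U z| ≤ 1 + m * (|U z| ^ (p + 1) * wt R.ℓ R.h δ z)
      have e4 := abs_le_pow R.hp0 (U z)
      have e5 : |U z| ^ (p + 1) ≤ m * (|U z| ^ (p + 1) * wt R.ℓ R.h δ z) := by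
        have := mul_le_mul_of_nonneg_left hz (Real.rpow_nonneg (abs_nonneg (U z)) (p + 1))
        calc |U z| ^ (p + 1) = |U z| ^ (p + 1) * 1 := (mul_one _).symm
          _ ≤ _ := this
          _ = _ := by ring
      linarith
    have e6 : ∫ z, |U z| ^ (p + 1) * wt R.ℓ R.h δ z ∂muT R.ℓ ≤ 1 := hA.2.1
    have e7 := mul_le_mul_of_nonneg_left e6 hm.le
    linarith
  have e8 := mul_le_mul_of_nonneg_left e1 hK
  constructor
  · have := lin_le (wa_meas R) h1 (hU.integrable one_le_two)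
    unfold Ring1D.a2
    rw [abs_div, abs_of_pos (by norm_num : (0:ℝ) < 2)]
    linarith
  · have := lin_le (wb_meas R) h2 (hU.integrable one_le_two)
    unfold Ring1D.b2
    rw [abs_div, abs_of_pos (by norm_num : (0:ℝ) < 2)]
    linarith

/-- the admissible set is convex (midpoints) -/
lemma adm_mid (hB : H1TBasic) {U V W U' V' W' : ℝ × ℝ → ℝ} (h : R.Adm δ U V W)
    (h' : R.Adm δ U' V' W') :
    R.Adm δ (fun z => (1 / 2) * (U z + U' z)) (fun z => (1 / 2) * (V z + V' z))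
      (fun z => (1 / 2) * (W z + W' z)) := by
  obtain ⟨-, hadd, hmul, -⟩ := hB R.ℓ R.hℓ
  obtain ⟨M, hM⟩ := wt_Wt R.ℓ δ R.smooth.continuous R.pos
  have ea : R.a2 (fun z => (1 / 2) * (U z + U' z)) = (1 / 2) * (R.a2 U + R.a2 U') := by
    have := a2_comb R h.1.mU h'.1.mU 1
    simpa using this
  have eb : R.b2 (fun z => (1 / 2) * (U z + U' z)) = (1 / 2) * (R.b2 U + R.b2 U') := by
    have := b2_comb R h.1.mU h'.1.mU 1
    simpa using this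
  refine ⟨hmul _ _ _ _ (hadd _ _ _ _ _ _ h.1 h'.1), ?_, ?_, ?_, ?_⟩
  · have e1 := pow_wt_mid R.hp0 R.hp1 hM h.1.mU h'.1.mU
    have e2 : ∫ z, |U z| ^ (p + 1) * wt R.ℓ R.h δ z ∂muT R.ℓ ≤ 1 := h.2.1
    have e3 : ∫ z, |U' z| ^ (p + 1) * wt R.ℓ R.h δ z ∂muT R.ℓ ≤ 1 := h'.2.1
    show ∫ z, |(1 / 2) * (U z + U' z)| ^ (p + 1) * wt R.ℓ R.h δ z ∂muT R.ℓ ≤ 1
    linarith
  · rw [ea]
    have := h.2.2.1
    have := h'.2.2.1
    linarith
  · rw [ea, eb]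
    have := h.2.2.2.1
    have := h'.2.2.2.1
    linarith
  · rw [ea, eb]
    have := h.2.2.2.2
    have := h'.2.2.2.2
    linarith

lemma BF_eq (U V W : ℝ × ℝ → ℝ) : R.BF δ U V W
    = l0 * Ph (muT R.ℓ) (wt R.ℓ R.h δ) U - Bil R.ℓ R.h δ V W V W := rfl

lemma BF_par (hδ : 0 < δ) {U V W U' V' W' : ℝ × ℝ → ℝ} (h : H1T R.ℓ U V W)
    (h' : H1T R.ℓ U' V' W') :
    R.BF δ (fun z => (1 / 2) * (U z + U' z)) (fun z => (1 / 2) * (V z + V' z))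
      (fun z => (1 / 2) * (W z + W' z))
    + R.BF δ (fun z => (1 / 2) * (U z + -1 * U' z)) (fun z => (1 / 2) * (V z + -1 * V' z))
      (fun z => (1 / 2) * (W z + -1 * W' z)) = (R.BF δ U V W + R.BF δ U' V' W') / 2 := by
  obtain ⟨M, hM⟩ := wt_Wt R.ℓ δ R.smooth.continuous R.pos
  have e1 := Ph_par hM h.mU h'.mU
  have e2 := bil_par R.smooth R.pos hδ h.mV h.mW h'.mV h'.mW
  simp only [BF_eq]
  have e3 : l0 * Ph (muT R.ℓ) (wt R.ℓ R.h δ) (fun z => (1 / 2) * (U z + U' z))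
      + l0 * Ph (muT R.ℓ) (wt R.ℓ R.h δ) (fun z => (1 / 2) * (U z + -1 * U' z))
      = l0 * ((Ph (muT R.ℓ) (wt R.ℓ R.h δ) U + Ph (muT R.ℓ) (wt R.ℓ R.h δ) U') / 2) := by
    rw [← mul_add, e1]
  linarith

end

/-- B3a -/
theorem maxExists (hB : H1TBasic) (hC : Coer2D) (hF : FormCompare) : MaxExists := by
  intro p l0 l1 l3 R
  obtain ⟨c, hc, C, hCpos, hev⟩ := hC p l0 l1 l3 R l1 (R.hl0.trans R.hl01) R.hl13
  obtain ⟨CF, hCF, hform⟩ := hF R.ℓ R.hℓ R.h R.smooth R.per R.pos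
  filter_upwards [hev, Ioc_mem_nhdsGT (zero_lt_one' ℝ)] with δ hco hδ
  have hδ0 : 0 < δ := hδ.1
  obtain ⟨-, hadd, hmul, -, hclosed, hcomp⟩ := hB R.ℓ R.hℓ
  obtain ⟨M, hM⟩ := wt_Wt R.ℓ δ R.smooth.continuous R.pos
  obtain ⟨B, hBd⟩ := adm_bd R δ
  -- the basic estimate
  have key : ∀ U V W, H1T R.ℓ U V W →
      c * ((∫ z, U z ^ 2 ∂muT R.ℓ) + Bil R.ℓ R.h δ V W V W)
        ≤ - R.BF δ U V W + C * (R.a2 U ^ 2 + R.b2 U ^ 2) := by
    intro U V W h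
    refine (hco U V W h).trans ?_
    have h1 : 0 ≤ Ph (muT R.ℓ) (wt R.ℓ R.h δ) U := Ph_nonneg hM U
    have h2 := mul_le_mul_of_nonneg_right R.hl01.le h1
    have h3 : Inu R.ℓ R.h δ (fun z => U z ^ 2) = Ph (muT R.ℓ) (wt R.ℓ R.h δ) U := rfl
    rw [h3, BF_eq]
    linarith
  have nn : ∀ U V W, H1T R.ℓ U V W →
      0 ≤ (∫ z, U z ^ 2 ∂muT R.ℓ) + Bil R.ℓ R.h δ V W V W := fun U V W h =>
    add_nonneg (integral_nonneg fun z => sq_nonneg _)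
      (bil_nonneg R.smooth R.pos hδ0 h.mV h.mW)
  -- the supremum
  set S : Set ℝ := {x | ∃ U V W, R.Adm δ U V W ∧ R.BF δ U V W = x} with hS
  have hne : S.Nonempty := by
    have h0 : MemLp (fun _ : ℝ × ℝ => (0:ℝ)) 2 (muT R.ℓ) := MemLp.zero
    obtain ⟨hC1, -⟩ := hB R.ℓ R.hℓ
    have hH : H1T R.ℓ (fun _ => (0:ℝ)) (dS fun _ => (0:ℝ)) (dY fun _ => (0:ℝ)) :=
      hC1 (fun _ => (0:ℝ)) ⟨contDiff_const, fun _ _ => rfl⟩
    refine ⟨_, _, _, _, ⟨hH, ?_, ?_, ?_, ?_⟩, rfl⟩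
    · have : p + 1 ≠ 0 := by linarith [R.hp0]
      simp [Inu, Real.zero_rpow this]
    · simp [Ring1D.a2]
    · simp [Ring1D.a2, Ring1D.b2]
    · simp [Ring1D.a2, Ring1D.b2]
  have hbdd : BddAbove S := by
    refine ⟨C * (B ^ 2 + B ^ 2), ?_⟩
    rintro _ ⟨U, V, W, hA, rfl⟩
    have h1 := key U V W hA.1
    have h2 := nn U V W hA.1
    obtain ⟨h3, h4⟩ := hBd U V W hA
    have h5 : R.a2 U ^ 2 ≤ B ^ 2 := by
      rw [← sq_abs]; exact pow_le_pow_left₀ (abs_nonneg _) h3 2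
    have h6 : R.b2 U ^ 2 ≤ B ^ 2 := by
      rw [← sq_abs]; exact pow_le_pow_left₀ (abs_nonneg _) h4 2
    have h7 := mul_nonneg hc.le h2
    have h8 := mul_le_mul_of_nonneg_left (add_le_add h5 h6) hCpos.le
    linarith
  set β := sSup S with hβ
  have hle : ∀ U V W, R.Adm δ U V W → R.BF δ U V W ≤ β := fun U V W h =>
    le_csSup hbdd ⟨U, V, W, h, rfl⟩
  have hex : ∀ n : ℕ, ∃ U V W, R.Adm δ U V W ∧ β - 1 / ((n:ℝ) + 1) < R.BF δ U V W := by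
    intro n
    have hn : (0:ℝ) < 1 / ((n:ℝ) + 1) := by positivity
    obtain ⟨_, ⟨U, V, W, hA, rfl⟩, hlt⟩ := exists_lt_of_lt_csSup hne (sub_lt_self β hn)
    exact ⟨U, V, W, hA, hlt⟩
  choose U0 V0 W0 hA0 hβ0 using hex
  -- convergent averages
  obtain ⟨ab, -, φ, hφ, hlim⟩ := (isCompact_Icc.prod isCompact_Icc :
    IsCompact (Icc (-B) B ×ˢ Icc (-B) B)).tendsto_subseq
    (x := fun n => (R.a2 (U0 n), R.b2 (U0 n)))
    (fun n => ⟨abs_le.1 (hBd _ _ _ (hA0 n)).1, abs_le.1 (hBd _ _ _ (hA0 n)).2⟩)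
  have la : Tendsto (fun n => R.a2 (U0 (φ n))) atTop (𝓝 ab.1) := (continuous_fst.tendsto _).comp hlim
  have lb : Tendsto (fun n => R.b2 (U0 (φ n))) atTop (𝓝 ab.2) := (continuous_snd.tendsto _).comp hlim
  set U1 := fun n => U0 (φ n) with hU1
  set V1 := fun n => V0 (φ n) with hV1
  set W1 := fun n => W0 (φ n) with hW1
  have hA1 : ∀ n, R.Adm δ (U1 n) (V1 n) (W1 n) := fun n => hA0 (φ n)
  have hβ1 : ∀ n : ℕ, β - 1 / ((n:ℝ) + 1) < R.BF δ (U1 n) (V1 n) (W1 n) := by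
    intro n
    refine lt_of_le_of_lt ?_ (hβ0 (φ n))
    have h1 : (n:ℝ) ≤ (φ n : ℝ) := by exact_mod_cast hφ.id_le n
    have h2 : 1 / ((φ n : ℝ) + 1) ≤ 1 / ((n:ℝ) + 1) :=
      one_div_le_one_div_of_le (by positivity) (by linarith)
    linarith
  -- error terms
  set e : ℕ → ℝ := fun n => 1 / ((n:ℝ) + 1) + ((R.a2 (U1 n) - ab.1) ^ 2 + (R.b2 (U1 n) - ab.2) ^ 2)
    with he
  have he0 : Tendsto e atTop (𝓝 0) := by
    have t1 : Tendsto (fun n : ℕ => 1 / ((n:ℝ) + 1)) atTop (𝓝 0) := tendsto_one_div_add_atTop_nhds_zero_nat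
    have t2 : Tendsto (fun n => (R.a2 (U1 n) - ab.1) ^ 2) atTop (𝓝 0) := by
      have := (la.sub_const ab.1).pow 2
      simpa using this
    have t3 : Tendsto (fun n => (R.b2 (U1 n) - ab.2) ^ 2) atTop (𝓝 0) := by
      have := (lb.sub_const ab.2).pow 2
      simpa using this
    have := t1.add (t2.add t3)
    rw [add_zero, add_zero] at this
    exact this
  have henn : ∀ n, 0 ≤ e n := fun n => by
    simp only [he]
    positivity
  set K0 : ℝ := 4 * ((1 + CF) / c) * (1 + C) with hK0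
  have hK0nn : 0 ≤ K0 := by positivity
  -- Cauchy estimate
  have hcau : ∀ n m, ∫ z, ((U1 n z - U1 m z) ^ 2 + (V1 n z - V1 m z) ^ 2
      + (W1 n z - W1 m z) ^ 2) ∂muT R.ℓ ≤ K0 * (e n + e m) := by
    intro n m
    have hn := (hA1 n).1
    have hm := (hA1 m).1
    set Z1 : ℝ × ℝ → ℝ := fun z => (1 / 2) * (U1 n z + -1 * U1 m z) with hZ1
    set Z2 : ℝ × ℝ → ℝ := fun z => (1 / 2) * (V1 n z + -1 * V1 m z) with hZ2
    set Z3 : ℝ × ℝ → ℝ := fun z => (1 / 2) * (W1 n z + -1 * W1 m z) with hZ3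
    have hZ : H1T R.ℓ Z1 Z2 Z3 := hmul _ _ _ _ (hadd _ _ _ _ _ _ hn (hmul (-1) _ _ _ hm))
    have h1 := key Z1 Z2 Z3 hZ
    have h2 := BF_par R hδ0 hn hm
    have h3 := hle _ _ _ (adm_mid R hB (hA1 n) (hA1 m))
    have h4 := hβ1 n
    have h5 := hβ1 m
    have h6 : - R.BF δ Z1 Z2 Z3 ≤ (1 / ((n:ℝ) + 1) + 1 / ((m:ℝ) + 1)) / 2 := by
      have : R.BF δ Z1 Z2 Z3 = (R.BF δ (U1 n) (V1 n) (W1 n) + R.BF δ (U1 m) (V1 m) (W1 m)) / 2
        - R.BF δ (fun z => (1 / 2) * (U1 n z + U1 m z)) (fun z => (1 / 2) * (V1 n z + V1 m z))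
          (fun z => (1 / 2) * (W1 n z + W1 m z)) := by
        rw [← h2]; ring
      rw [this]
      linarith
    have ha : R.a2 Z1 = (1 / 2) * (R.a2 (U1 n) + -1 * R.a2 (U1 m)) := a2_comb R hn.mU hm.mU (-1)
    have hb : R.b2 Z1 = (1 / 2) * (R.b2 (U1 n) + -1 * R.b2 (U1 m)) := b2_comb R hn.mU hm.mU (-1)
    have h7 : R.a2 Z1 ^ 2 ≤ (R.a2 (U1 n) - ab.1) ^ 2 + (R.a2 (U1 m) - ab.1) ^ 2 := by
      rw [ha]
      nlinarith [sq_nonneg ((R.a2 (U1 n) - ab.1) + (R.a2 (U1 m) - ab.1)),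
        sq_nonneg (R.a2 (U1 n) - ab.1), sq_nonneg (R.a2 (U1 m) - ab.1)]
    have h8 : R.b2 Z1 ^ 2 ≤ (R.b2 (U1 n) - ab.2) ^ 2 + (R.b2 (U1 m) - ab.2) ^ 2 := by
      rw [hb]
      nlinarith [sq_nonneg ((R.b2 (U1 n) - ab.2) + (R.b2 (U1 m) - ab.2)),
        sq_nonneg (R.b2 (U1 n) - ab.2), sq_nonneg (R.b2 (U1 m) - ab.2)]
    have h9 : c * ((∫ z, Z1 z ^ 2 ∂muT R.ℓ) + Bil R.ℓ R.h δ Z2 Z3 Z2 Z3)
        ≤ (1 + C) * (e n + e m) := by
      have g1 : 0 ≤ 1 / ((n:ℝ) + 1) := by positivity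
      have g2 : 0 ≤ 1 / ((m:ℝ) + 1) := by positivity
      have g3 := mul_le_mul_of_nonneg_left (add_le_add h7 h8) hCpos.le
      have g4 : 0 ≤ C * (1 / ((n:ℝ) + 1)) := mul_nonneg hCpos.le g1
      have g5 : 0 ≤ C * (1 / ((m:ℝ) + 1)) := mul_nonneg hCpos.le g2
      have g6 := sq_nonneg (R.a2 (U1 n) - ab.1)
      have g7 := sq_nonneg (R.a2 (U1 m) - ab.1)
      have g8 := sq_nonneg (R.b2 (U1 n) - ab.2)
      have g9 := sq_nonneg (R.b2 (U1 m) - ab.2)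
      simp only [he]
      linarith
    have hf := (hform δ hδ Z2 Z3 hZ.mV hZ.mW).1
    have hW3 : ∫ z, Z3 z ^ 2 ∂muT R.ℓ ≤ (∫ z, Z3 z ^ 2 ∂muT R.ℓ) / δ ^ 2 := by
      rw [le_div_iff₀ (by positivity)]
      have g1 : 0 ≤ ∫ z, Z3 z ^ 2 ∂muT R.ℓ := integral_nonneg fun z => sq_nonneg _
      have g2 : δ ^ 2 ≤ 1 := pow_le_one₀ hδ0.le hδ.2
      calc (∫ z, Z3 z ^ 2 ∂muT R.ℓ) * δ ^ 2 ≤ (∫ z, Z3 z ^ 2 ∂muT R.ℓ) * 1 :=
            mul_le_mul_of_nonneg_left g2 g1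
        _ = _ := mul_one _
    have i1 := integrable_sq hZ.mU
    have i2 := integrable_sq hZ.mV
    have i3 := integrable_sq hZ.mW
    have h10 : ∫ z, ((U1 n z - U1 m z) ^ 2 + (V1 n z - V1 m z) ^ 2
        + (W1 n z - W1 m z) ^ 2) ∂muT R.ℓ = 4 * ((∫ z, Z1 z ^ 2 ∂muT R.ℓ)
          + (∫ z, Z2 z ^ 2 ∂muT R.ℓ) + ∫ z, Z3 z ^ 2 ∂muT R.ℓ) := by
      have i12 : Integrable (fun z => Z1 z ^ 2 + Z2 z ^ 2) (muT R.ℓ) := i1.add i2
      rw [← integral_add i1 i2, ← integral_add i12 i3, ← integral_const_mul]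
      refine integral_congr_ae (ae_of_all _ fun z => ?_)
      show (U1 n z - U1 m z) ^ 2 + (V1 n z - V1 m z) ^ 2 + (W1 n z - W1 m z) ^ 2
        = 4 * (((1 / 2) * (U1 n z + -1 * U1 m z)) ^ 2 + ((1 / 2) * (V1 n z + -1 * V1 m z)) ^ 2
          + ((1 / 2) * (W1 n z + -1 * W1 m z)) ^ 2)
      ring
    have hbil := bil_nonneg R.smooth R.pos hδ0 hZ.mV hZ.mW
    have hU0 : 0 ≤ ∫ z, Z1 z ^ 2 ∂muT R.ℓ := integral_nonneg fun z => sq_nonneg _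
    have h11 : (∫ z, Z1 z ^ 2 ∂muT R.ℓ) + (∫ z, Z2 z ^ 2 ∂muT R.ℓ) + (∫ z, Z3 z ^ 2 ∂muT R.ℓ)
        ≤ (1 + CF) * ((∫ z, Z1 z ^ 2 ∂muT R.ℓ) + Bil R.ℓ R.h δ Z2 Z3 Z2 Z3) := by
      have g1 : 0 ≤ CF * ∫ z, Z1 z ^ 2 ∂muT R.ℓ := mul_nonneg hCF.le hU0
      linarith
    have h12 : (∫ z, Z1 z ^ 2 ∂muT R.ℓ) + Bil R.ℓ R.h δ Z2 Z3 Z2 Z3
        ≤ (1 + C) * (e n + e m) / c := by
      rw [le_div_iff₀ hc]
      linarith
    have h13 := mul_le_mul_of_nonneg_left h12 (by positivity : (0:ℝ) ≤ 1 + CF)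
    rw [h10]
    have h14 : K0 * (e n + e m) = 4 * ((1 + CF) * ((1 + C) * (e n + e m) / c)) := by
      simp only [hK0]
      field_simp
    rw [h14]
    linarith
  -- the limit
  obtain ⟨U, V, W, hH, hconv⟩ := hcomp U1 V1 W1 (fun n => (hA1 n).1) (by
    intro ε hε
    have t1 : Tendsto (fun n => K0 * e n) atTop (𝓝 0) := by
      simpa using he0.const_mul K0
    obtain ⟨N, hN⟩ := Metric.tendsto_atTop.1 t1 (ε / 2) (by positivity)
    refine ⟨N, fun n hn m hm => ?_⟩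
    have h1 := hN n hn
    have h2 := hN m hm
    rw [Real.dist_eq, sub_zero, abs_of_nonneg (mul_nonneg hK0nn (henn _))] at h1 h2
    have h3 := hcau n m
    rw [mul_add] at h3
    linarith)
  have dU : ∀ n, MemLp (fun z => U1 n z - U z) 2 (muT R.ℓ) := fun n => (hA1 n).1.mU.sub hH.mU
  have dV : ∀ n, MemLp (fun z => V1 n z - V z) 2 (muT R.ℓ) := fun n => (hA1 n).1.mV.sub hH.mV
  have dW : ∀ n, MemLp (fun z => W1 n z - W z) 2 (muT R.ℓ) := fun n => (hA1 n).1.mW.sub hH.mW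
  have itot : ∀ n, Integrable (fun z => (U1 n z - U z) ^ 2 + (V1 n z - V z) ^ 2
      + (W1 n z - W z) ^ 2) (muT R.ℓ) := fun n =>
    ((integrable_sq (dU n)).add (integrable_sq (dV n))).add (integrable_sq (dW n))
  have tU : Tendsto (fun n => ∫ z, (U1 n z - U z) ^ 2 ∂muT R.ℓ) atTop (𝓝 0) := by
    refine squeeze_zero (fun n => integral_nonneg fun z => sq_nonneg _) (fun n => ?_) hconv
    refine integral_mono (integrable_sq (dU n)) (itot n) fun z => ?_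
    show (U1 n z - U z) ^ 2 ≤ (U1 n z - U z) ^ 2 + (V1 n z - V z) ^ 2 + (W1 n z - W z) ^ 2
    linarith [sq_nonneg (V1 n z - V z), sq_nonneg (W1 n z - W z)]
  have tV : Tendsto (fun n => ∫ z, (V1 n z - V z) ^ 2 ∂muT R.ℓ) atTop (𝓝 0) := by
    refine squeeze_zero (fun n => integral_nonneg fun z => sq_nonneg _) (fun n => ?_) hconv
    refine integral_mono (integrable_sq (dV n)) (itot n) fun z => ?_
    show (V1 n z - V z) ^ 2 ≤ (U1 n z - U z) ^ 2 + (V1 n z - V z) ^ 2 + (W1 n z - W z) ^ 2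
    linarith [sq_nonneg (U1 n z - U z), sq_nonneg (W1 n z - W z)]
  have tW : Tendsto (fun n => ∫ z, (W1 n z - W z) ^ 2 ∂muT R.ℓ) atTop (𝓝 0) := by
    refine squeeze_zero (fun n => integral_nonneg fun z => sq_nonneg _) (fun n => ?_) hconv
    refine integral_mono (integrable_sq (dW n)) (itot n) fun z => ?_
    show (W1 n z - W z) ^ 2 ≤ (U1 n z - U z) ^ 2 + (V1 n z - V z) ^ 2 + (W1 n z - W z) ^ 2
    linarith [sq_nonneg (U1 n z - U z), sq_nonneg (V1 n z - V z)]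
  have tPh : Tendsto (fun n => Ph (muT R.ℓ) (wt R.ℓ R.h δ) (fun z => U1 n z - U z)) atTop
      (𝓝 0) := by
    have t1 : Tendsto (fun n => M * ∫ z, (U1 n z - U z) ^ 2 ∂muT R.ℓ) atTop (𝓝 0) := by
      simpa using tU.const_mul M
    exact squeeze_zero (fun n => Ph_nonneg hM _) (fun n => Ph_le hM (dU n)) t1
  obtain ⟨ta, tb⟩ := a2_tendsto R (fun n => (hA1 n).1.mU) hH.mU tU
  have hAdm : R.Adm δ U V W := by
    refine ⟨hH, ?_, ?_, ?_, ?_⟩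
    · exact pow_wt_le R.hp0 R.hp1 hM (fun n => (hA1 n).1.mU) hH.mU tPh (fun n => (hA1 n).2.1)
    · exact ge_of_tendsto' ta fun n => (hA1 n).2.2.1
    · exact le_of_tendsto_of_tendsto' (ta.const_mul R.t1) tb fun n => (hA1 n).2.2.2.1
    · exact le_of_tendsto_of_tendsto' tb (ta.const_mul R.t2) fun n => (hA1 n).2.2.2.2
  have tBF : Tendsto (fun n => R.BF δ (U1 n) (V1 n) (W1 n)) atTop (𝓝 (R.BF δ U V W)) := by
    have t1 := Ph_tendsto hM (fun n => (hA1 n).1.mU) hH.mU tPh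
    have t2 := bil_tendsto R.smooth R.pos hδ0 hH.mV hH.mW (fun n => (hA1 n).1.mV)
      (fun n => (hA1 n).1.mW) tV tW
    exact (t1.const_mul l0).sub t2
  have hge : β ≤ R.BF δ U V W := by
    have t1 : Tendsto (fun n : ℕ => β - 1 / ((n:ℝ) + 1)) atTop (𝓝 (β - 0)) :=
      (tendsto_one_div_add_atTop_nhds_zero_nat (𝕜 := ℝ)).const_sub β
    rw [sub_zero] at t1
    exact le_of_tendsto_of_tendsto' t1 tBF fun n => (hβ1 n).le
  exact ⟨U, V, W, hAdm, fun U' V' W' h => (hle U' V' W' h).trans hge⟩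

end Pool.Agent.Lib.MP_e46711_an.H69
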