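import Pool.Agent.Lib.MP_e46711_an.H82.Basic

/-!
# Weighted square integrals over the strip: tools for module B3
-/

open Set Filter Topology MeasureTheory
open scoped ContDiff

set_option linter.unusedSectionVars false

namespace Pool.Agent.Lib.MP_e46711_an.H69

open Pool.Agent.Lib.MP_e46711_an

/-! ## real sequences -/

lemma tendsto_of_eps {a d : ℕ → ℝ} {L A : ℝ} (hd : Tendsto d atTop (𝓝 0))
    (H : ∀ ε > 0, ∃ C, ∀ n, |a n - L| ≤ ε * A + C * d n) : Tendsto a atTop (𝓝 L) := by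
  rw [Metric.tendsto_atTop]
  intro η hη
  obtain ⟨C, hC⟩ := H (η / (2 * (|A| + 1))) (by positivity)
  have h1 : Tendsto (fun n => C * d n) atTop (𝓝 0) := by
    simpa using hd.const_mul C
  obtain ⟨N, hN⟩ := Metric.tendsto_atTop.1 h1 (η / 2) (by positivity)
  refine ⟨N, fun n hn => ?_⟩
  have h2 := hN n hn
  rw [Real.dist_eq, sub_zero] at h2
  rw [Real.dist_eq]
  have h3 : η / (2 * (|A| + 1)) * A ≤ η / 2 := by
    have : η / (2 * (|A| + 1)) * A ≤ η / (2 * (|A| + 1)) * (|A| + 1) := by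
      refine mul_le_mul_of_nonneg_left ?_ (by positivity)
      linarith [le_abs_self A]
    refine this.trans (le_of_eq ?_)
    have : |A| + 1 ≠ 0 := by positivity
    field_simp
  have h4 := hC n
  have h5 := le_abs_self (C * d n)
  linarith

lemma le_of_eps {d : ℕ → ℝ} {x L A : ℝ} (hd : Tendsto d atTop (𝓝 0))
    (H : ∀ ε > 0, ∃ C, ∀ n, x ≤ L + ε * A + C * d n) : x ≤ L := by
  refine le_of_forall_pos_le_add fun η hη => ?_
  obtain ⟨C, hC⟩ := H (η / (|A| + 1)) (by positivity)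
  have h1 : Tendsto (fun n => L + η / (|A| + 1) * A + C * d n) atTop
      (𝓝 (L + η / (|A| + 1) * A + C * 0)) := (hd.const_mul C).const_add _
  have h2 := ge_of_tendsto' h1 hC
  have h3 : η / (|A| + 1) * A ≤ η := by
    have : η / (|A| + 1) * A ≤ η / (|A| + 1) * (|A| + 1) := by
      refine mul_le_mul_of_nonneg_left ?_ (by positivity)
      linarith [le_abs_self A]
    refine this.trans (le_of_eq ?_)
    have : |A| + 1 ≠ 0 := by positivity
    field_simp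
  linarith

/-! ## the measure -/

instance instFin (ℓ : ℝ) : IsFiniteMeasure (muT ℓ) := by unfold muT; infer_instance

lemma ae_mem (ℓ : ℝ) : ∀ᵐ z ∂muT ℓ, z ∈ Icc (0:ℝ) ℓ ×ˢ Icc (-1:ℝ) 1 := by
  unfold muT
  rw [Measure.prod_restrict]
  have h := ae_restrict_mem (μ := (volume : Measure ℝ).prod (volume : Measure ℝ))
    ((measurableSet_Ioc (a := (0:ℝ)) (b := ℓ)).prod (measurableSet_Ioo (a := (-1:ℝ)) (b := 1)))
  filter_upwards [h] with z hz
  exact ⟨Ioc_subset_Icc_self hz.1, Ioo_subset_Icc_self hz.2⟩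

lemma exists_bd (ℓ : ℝ) {f : ℝ × ℝ → ℝ} (hf : Continuous f) :
    ∃ M, ∀ᵐ z ∂muT ℓ, |f z| ≤ M := by
  obtain ⟨M, hM⟩ := (isCompact_Icc.prod isCompact_Icc).exists_bound_of_continuousOn
    (s := Icc (0:ℝ) ℓ ×ˢ Icc (-1:ℝ) 1) hf.continuousOn
  exact ⟨M, (ae_mem ℓ).mono fun z hz => hM z hz⟩

/-! ## weighted squares -/

/-- a bounded nonnegative weight -/
structure Wt (μ : Measure (ℝ × ℝ)) (w : ℝ × ℝ → ℝ) (M : ℝ) : Prop where
  meas : AEStronglyMeasurable w μ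
  nn : ∀ᵐ z ∂μ, 0 ≤ w z
  le : ∀ᵐ z ∂μ, w z ≤ M

/-- weighted square integral -/
noncomputable def Ph (μ : Measure (ℝ × ℝ)) (w A : ℝ × ℝ → ℝ) : ℝ := ∫ z, A z ^ 2 * w z ∂μ

section

variable {μ : Measure (ℝ × ℝ)} [IsFiniteMeasure μ] {w : ℝ × ℝ → ℝ} {M : ℝ}

lemma integrable_sq {A : ℝ × ℝ → ℝ} (hA : MemLp A 2 μ) : Integrable (fun z => A z ^ 2) μ :=
  hA.integrable_sq

lemma int_wt {f g : ℝ × ℝ → ℝ} (hw : Wt μ w M) (hf : AEStronglyMeasurable f μ)
    (hg : Integrable g μ) (h : ∀ᵐ z ∂μ, |f z| ≤ g z) : Integrable (fun z => f z * w z) μ := by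
  refine Integrable.mono' (hg.mul_const M) (hf.mul hw.meas) ?_
  filter_upwards [h, hw.nn, hw.le] with z h1 h2 h3
  rw [Real.norm_eq_abs, abs_mul, abs_of_nonneg h2]
  exact mul_le_mul h1 h3 h2 ((abs_nonneg _).trans h1)

lemma int_sq_wt (hw : Wt μ w M) {A : ℝ × ℝ → ℝ} (hA : MemLp A 2 μ) :
    Integrable (fun z => A z ^ 2 * w z) μ := by
  refine int_wt hw (hA.aestronglyMeasurable.pow 2) (integrable_sq hA) ?_
  filter_upwards with z
  rw [abs_of_nonneg (sq_nonneg _)]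

lemma Ph_nonneg (hw : Wt μ w M) (A : ℝ × ℝ → ℝ) : 0 ≤ Ph μ w A :=
  integral_nonneg_of_ae (hw.nn.mono fun _ hz => mul_nonneg (sq_nonneg _) hz)

lemma Ph_le (hw : Wt μ w M) {A : ℝ × ℝ → ℝ} (hA : MemLp A 2 μ) :
    Ph μ w A ≤ M * ∫ z, A z ^ 2 ∂μ := by
  rw [← integral_const_mul]
  refine integral_mono_ae (int_sq_wt hw hA) ((integrable_sq hA).const_mul M) ?_
  filter_upwards [hw.le] with z hz
  show A z ^ 2 * w z ≤ M * A z ^ 2
  nlinarith [sq_nonneg (A z)]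

/-- parallelogram law -/
lemma Ph_par (hw : Wt μ w M) {A B : ℝ × ℝ → ℝ} (hA : MemLp A 2 μ) (hB : MemLp B 2 μ) :
    Ph μ w (fun z => (1 / 2) * (A z + B z)) + Ph μ w (fun z => (1 / 2) * (A z + -1 * B z))
      = (Ph μ w A + Ph μ w B) / 2 := by
  have h1 : MemLp (fun z => (1 / 2 : ℝ) * (A z + B z)) 2 μ := (hA.add hB).const_mul _
  have h2 : MemLp (fun z => (1 / 2 : ℝ) * (A z + -1 * B z)) 2 μ :=
    (hA.add (hB.const_mul (-1))).const_mul _
  unfold Ph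
  rw [← integral_add (int_sq_wt hw h1) (int_sq_wt hw h2),
    ← integral_add (int_sq_wt hw hA) (int_sq_wt hw hB), ← integral_div]
  refine integral_congr_ae (ae_of_all _ fun z => ?_)
  show ((1 / 2) * (A z + B z)) ^ 2 * w z + ((1 / 2) * (A z + -1 * B z)) ^ 2 * w z
    = (A z ^ 2 * w z + B z ^ 2 * w z) / 2
  ring

lemma sq_diff_le {x y ε : ℝ} (hε : 0 < ε) :
    |x ^ 2 - y ^ 2| ≤ ε * y ^ 2 + (1 + 1 / ε) * (x - y) ^ 2 := by
  have h1 : 2 * |y * (x - y)| ≤ ε * y ^ 2 + 1 / ε * (x - y) ^ 2 := by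
    have h2 : 0 ≤ (ε * |y| - |x - y|) ^ 2 / ε := by positivity
    have h3 : (ε * |y| - |x - y|) ^ 2 / ε
        = ε * y ^ 2 + 1 / ε * (x - y) ^ 2 - 2 * |y * (x - y)| := by
      rw [abs_mul, ← sq_abs y, ← sq_abs (x - y)]
      field_simp
      ring
    linarith
  have h4 : x ^ 2 - y ^ 2 = (x - y) ^ 2 + 2 * (y * (x - y)) := by ring
  rw [h4]
  calc |(x - y) ^ 2 + 2 * (y * (x - y))| ≤ |(x - y) ^ 2| + |2 * (y * (x - y))| := abs_add_le _ _
    _ = (x - y) ^ 2 + 2 * |y * (x - y)| := by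
        rw [abs_of_nonneg (sq_nonneg _), abs_mul, abs_of_pos (by norm_num : (0:ℝ) < 2)]
    _ ≤ _ := by linarith

lemma Ph_diff (hw : Wt μ w M) {A B : ℝ × ℝ → ℝ} (hA : MemLp A 2 μ) (hB : MemLp B 2 μ) {ε : ℝ}
    (hε : 0 < ε) :
    |Ph μ w A - Ph μ w B| ≤ ε * Ph μ w B + (1 + 1 / ε) * Ph μ w (fun z => A z - B z) := by
  have hAB : MemLp (fun z => A z - B z) 2 μ := hA.sub hB
  unfold Ph
  rw [← integral_sub (int_sq_wt hw hA) (int_sq_wt hw hB)]
  refine (abs_integral_le_integral_abs).trans ?_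
  rw [← integral_const_mul, ← integral_const_mul, ← integral_add ((int_sq_wt hw hB).const_mul _)
    ((int_sq_wt hw hAB).const_mul _)]
  refine integral_mono_ae ((int_sq_wt hw hA).sub (int_sq_wt hw hB)).abs
    (((int_sq_wt hw hB).const_mul _).add ((int_sq_wt hw hAB).const_mul _)) ?_
  filter_upwards [hw.nn] with z hz
  show |A z ^ 2 * w z - B z ^ 2 * w z|
    ≤ ε * (B z ^ 2 * w z) + (1 + 1 / ε) * ((A z - B z) ^ 2 * w z)
  have h1 := sq_diff_le (x := A z) (y := B z) hε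
  rw [← sub_mul, abs_mul, abs_of_nonneg hz]
  calc |A z ^ 2 - B z ^ 2| * w z ≤ (ε * B z ^ 2 + (1 + 1 / ε) * (A z - B z) ^ 2) * w z :=
        mul_le_mul_of_nonneg_right h1 hz
    _ = _ := by ring

lemma Ph_tendsto (hw : Wt μ w M) {A : ℕ → ℝ × ℝ → ℝ} {B : ℝ × ℝ → ℝ} (hA : ∀ n, MemLp (A n) 2 μ)
    (hB : MemLp B 2 μ) (h : Tendsto (fun n => Ph μ w (fun z => A n z - B z)) atTop (𝓝 0)) :
    Tendsto (fun n => Ph μ w (A n)) atTop (𝓝 (Ph μ w B)) :=
  tendsto_of_eps h fun ε hε => ⟨1 + 1 / ε, fun n => Ph_diff hw (hA n) hB hε⟩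

/-! ## linear functionals -/

lemma abs_le_eps {x ε : ℝ} (hε : 0 < ε) : |x| ≤ ε + 1 / ε * x ^ 2 := by
  rcases le_total |x| ε with h | h
  · have : 0 ≤ 1 / ε * x ^ 2 := by positivity
    linarith
  · have h1 : |x| ≤ 1 / ε * x ^ 2 := by
      rw [← sq_abs x, one_div, inv_mul_eq_div, le_div_iff₀ hε]
      nlinarith [abs_nonneg x]
    linarith

variable {k : ℝ × ℝ → ℝ} {K : ℝ}

lemma int_lin (hk : AEStronglyMeasurable k μ) (hK : ∀ᵐ z ∂μ, |k z| ≤ K) {A : ℝ × ℝ → ℝ}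
    (hA : Integrable A μ) : Integrable (fun z => k z * A z) μ := by
  refine Integrable.mono' (hA.abs.const_mul K) (hk.mul hA.aestronglyMeasurable) ?_
  filter_upwards [hK] with z hz
  rw [Real.norm_eq_abs, abs_mul]
  exact mul_le_mul_of_nonneg_right hz (abs_nonneg _)

lemma lin_le (hk : AEStronglyMeasurable k μ) (hK : ∀ᵐ z ∂μ, |k z| ≤ K) {A : ℝ × ℝ → ℝ}
    (hA : Integrable A μ) : |∫ z, k z * A z ∂μ| ≤ K * ∫ z, |A z| ∂μ := by
  refine (abs_integral_le_integral_abs).trans ?_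
  rw [← integral_const_mul]
  refine integral_mono_ae (int_lin hk hK hA).abs (hA.abs.const_mul K) ?_
  filter_upwards [hK] with z hz
  show |k z * A z| ≤ K * |A z|
  rw [abs_mul]
  exact mul_le_mul_of_nonneg_right hz (abs_nonneg _)

lemma int_abs_le {D : ℝ × ℝ → ℝ} (hD : MemLp D 2 μ) {ε : ℝ} (hε : 0 < ε) :
    ∫ z, |D z| ∂μ ≤ ε * μ.real univ + 1 / ε * ∫ z, D z ^ 2 ∂μ := by
  have h1 : ε * μ.real univ = ∫ _, ε ∂μ := by rw [integral_const, smul_eq_mul, mul_comm]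
  rw [h1, ← integral_const_mul, ← integral_add (integrable_const _)
    ((integrable_sq hD).const_mul _)]
  refine integral_mono_ae (hD.integrable one_le_two).abs
    ((integrable_const _).add ((integrable_sq hD).const_mul _)) ?_
  exact ae_of_all _ fun z => abs_le_eps hε

lemma lin_tendsto (hk : AEStronglyMeasurable k μ) (hK : ∀ᵐ z ∂μ, |k z| ≤ K) (hK0 : 0 ≤ K)
    {A : ℕ → ℝ × ℝ → ℝ} {B : ℝ × ℝ → ℝ} (hA : ∀ n, MemLp (A n) 2 μ) (hB : MemLp B 2 μ)
    (h : Tendsto (fun n => ∫ z, (A n z - B z) ^ 2 ∂μ) atTop (𝓝 0)) :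
    Tendsto (fun n => ∫ z, k z * A n z ∂μ) atTop (𝓝 (∫ z, k z * B z ∂μ)) := by
  refine tendsto_of_eps (A := K * μ.real univ) h fun ε hε => ⟨K * (1 / ε), fun n => ?_⟩
  have hAB : MemLp (fun z => A n z - B z) 2 μ := (hA n).sub hB
  rw [← integral_sub (int_lin hk hK ((hA n).integrable one_le_two))
    (int_lin hk hK (hB.integrable one_le_two))]
  have h1 : (fun z => k z * A n z - k z * B z) = fun z => k z * (A n z - B z) := by
    funext z; ring
  rw [h1]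
  refine (lin_le hk hK (hAB.integrable one_le_two)).trans ?_
  have h2 := mul_le_mul_of_nonneg_left (int_abs_le hAB hε) hK0
  refine h2.trans (le_of_eq ?_)
  ring

/-! ## the power `p + 1` -/

lemma pow_le {p : ℝ} (hp : 0 < p) (hp1 : p < 1) (x : ℝ) : |x| ^ (p + 1) ≤ 1 + x ^ 2 := by
  rcases le_total |x| 1 with h | h
  · have := Real.rpow_le_one (abs_nonneg x) h (by linarith : 0 ≤ p + 1)
    nlinarith [sq_nonneg x]
  · have := Real.rpow_le_rpow_of_exponent_le h (by linarith : p + 1 ≤ 2)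
    rw [show (2:ℝ) = ((2:ℕ):ℝ) by norm_num, Real.rpow_natCast, sq_abs] at this
    linarith

lemma abs_le_pow {p : ℝ} (hp : 0 < p) (x : ℝ) : |x| ≤ 1 + |x| ^ (p + 1) := by
  rcases le_total |x| 1 with h | h
  · have := Real.rpow_nonneg (abs_nonneg x) (p + 1)
    linarith
  · have := Real.rpow_le_rpow_of_exponent_le h (by linarith : 1 ≤ p + 1)
    rw [Real.rpow_one] at this
    linarith

lemma meas_pow {p : ℝ} (hp : 0 < p) {A : ℝ × ℝ → ℝ} (hA : AEStronglyMeasurable A μ) :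
    AEStronglyMeasurable (fun z => |A z| ^ (p + 1)) μ := by
  have hc : Continuous fun x : ℝ => |x| ^ (p + 1) :=
    continuous_abs.rpow_const fun _ => Or.inr (by linarith)
  exact hc.comp_aestronglyMeasurable hA

lemma int_pow {p : ℝ} (hp : 0 < p) (hp1 : p < 1) {A : ℝ × ℝ → ℝ} (hA : MemLp A 2 μ) :
    Integrable (fun z => |A z| ^ (p + 1)) μ := by
  refine Integrable.mono' ((integrable_const 1).add (integrable_sq hA))
    (meas_pow hp hA.aestronglyMeasurable) ?_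
  refine ae_of_all _ fun z => ?_
  rw [Real.norm_eq_abs, abs_of_nonneg (Real.rpow_nonneg (abs_nonneg _) _)]
  exact pow_le hp hp1 _

lemma int_pow_wt {p : ℝ} (hp : 0 < p) (hp1 : p < 1) (hw : Wt μ w M) {A : ℝ × ℝ → ℝ}
    (hA : MemLp A 2 μ) : Integrable (fun z => |A z| ^ (p + 1) * w z) μ := by
  refine int_wt hw (meas_pow hp hA.aestronglyMeasurable) (int_pow hp hp1 hA) ?_
  refine ae_of_all _ fun z => ?_
  rw [abs_of_nonneg (Real.rpow_nonneg (abs_nonneg _) _)]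

lemma pow_mid {p : ℝ} (hp : 0 < p) (x y : ℝ) :
    |(1 / 2) * (x + y)| ^ (p + 1) ≤ (|x| ^ (p + 1) + |y| ^ (p + 1)) / 2 := by
  have h1 := tangent (q := p + 1) (by linarith) x ((1 / 2) * (x + y))
  have h2 := tangent (q := p + 1) (by linarith) y ((1 / 2) * (x + y))
  have h3 : (p + 1) * sp (p + 1 - 1) (1 / 2 * (x + y)) * (x - 1 / 2 * (x + y))
      + (p + 1) * sp (p + 1 - 1) (1 / 2 * (x + y)) * (y - 1 / 2 * (x + y)) = 0 := by ring
  linarith

lemma pow_wt_mid {p : ℝ} (hp : 0 < p) (hp1 : p < 1) (hw : Wt μ w M) {A B : ℝ × ℝ → ℝ}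
    (hA : MemLp A 2 μ) (hB : MemLp B 2 μ) :
    ∫ z, |(1 / 2) * (A z + B z)| ^ (p + 1) * w z ∂μ
      ≤ ((∫ z, |A z| ^ (p + 1) * w z ∂μ) + ∫ z, |B z| ^ (p + 1) * w z ∂μ) / 2 := by
  have h1 : MemLp (fun z => (1 / 2 : ℝ) * (A z + B z)) 2 μ := (hA.add hB).const_mul _
  rw [← integral_add (int_pow_wt hp hp1 hw hA) (int_pow_wt hp hp1 hw hB), ← integral_div]
  refine integral_mono_ae (int_pow_wt hp hp1 hw h1)
    (((int_pow_wt hp hp1 hw hA).add (int_pow_wt hp hp1 hw hB)).div_const 2) ?_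
  filter_upwards [hw.nn] with z hz
  show |(1 / 2) * (A z + B z)| ^ (p + 1) * w z
    ≤ (|A z| ^ (p + 1) * w z + |B z| ^ (p + 1) * w z) / 2
  have := mul_le_mul_of_nonneg_right (pow_mid hp (A z) (B z)) hz
  calc _ ≤ _ := this
    _ = _ := by ring

lemma pow_diff {p : ℝ} (hp : 0 < p) (hp1 : p < 1) {ε : ℝ} (hε : 0 < ε) (x y : ℝ) :
    |y| ^ (p + 1) ≤ |x| ^ (p + 1) + ε * (4 * (1 + y ^ 2)) + 1 / ε * (x - y) ^ 2 := by
  have h1 := tangent (q := p + 1) (by linarith) x y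
  rw [show p + 1 - 1 = p by ring] at h1
  have h2 : |sp p y| ≤ 1 + |y| := by
    rw [abs_sp hp]
    rcases le_total |y| 1 with h | h
    · have := Real.rpow_le_one (abs_nonneg y) h hp.le
      linarith [abs_nonneg y]
    · have := Real.rpow_le_rpow_of_exponent_le h hp1.le
      rw [Real.rpow_one] at this
      linarith
  have h3 : |(p + 1) * sp p y * (x - y)| ≤ 2 * (1 + |y|) * |x - y| := by
    rw [abs_mul, abs_mul, abs_of_pos (by linarith : 0 < p + 1)]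
    refine mul_le_mul_of_nonneg_right ?_ (abs_nonneg _)
    exact mul_le_mul (by linarith) h2 (abs_nonneg _) (by norm_num)
  have h4 : 2 * (1 + |y|) * |x - y| ≤ ε * (1 + |y|) ^ 2 + 1 / ε * (x - y) ^ 2 := by
    have h5 : 0 ≤ (ε * (1 + |y|) - |x - y|) ^ 2 / ε := by positivity
    have h6 : (ε * (1 + |y|) - |x - y|) ^ 2 / ε
        = ε * (1 + |y|) ^ 2 + 1 / ε * (x - y) ^ 2 - 2 * (1 + |y|) * |x - y| := by
      rw [← sq_abs (x - y)]
      field_simp
      ring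
    linarith
  have h7 : (1 + |y|) ^ 2 ≤ 4 * (1 + y ^ 2) := by
    rw [← sq_abs y]
    nlinarith [sq_nonneg (1 - |y|), sq_nonneg (|y|)]
  have h8 := mul_le_mul_of_nonneg_left h7 hε.le
  have h9 := neg_abs_le ((p + 1) * sp p y * (x - y))
  linarith

/-- `∫ |.|^(p+1) w` is lower semicontinuous in `L^2` -/
lemma pow_wt_le {p : ℝ} (hp : 0 < p) (hp1 : p < 1) (hw : Wt μ w M)
    {A : ℕ → ℝ × ℝ → ℝ} {B : ℝ × ℝ → ℝ} (hA : ∀ n, MemLp (A n) 2 μ) (hB : MemLp B 2 μ)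
    (h : Tendsto (fun n => Ph μ w (fun z => A n z - B z)) atTop (𝓝 0)) {L : ℝ}
    (hL : ∀ n, ∫ z, |A n z| ^ (p + 1) * w z ∂μ ≤ L) :
    ∫ z, |B z| ^ (p + 1) * w z ∂μ ≤ L := by
  refine le_of_eps (A := ∫ z, 4 * (1 + B z ^ 2) * w z ∂μ) h fun ε hε => ⟨1 / ε, fun n => ?_⟩
  have hAB : MemLp (fun z => A n z - B z) 2 μ := (hA n).sub hB
  have i1 : Integrable (fun z => 4 * (1 + B z ^ 2) * w z) μ := by
    refine int_wt hw ?_ (((integrable_const 1).add (integrable_sq hB)).const_mul 4) ?_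
    · exact ((hB.aestronglyMeasurable.pow 2).const_add 1).const_mul 4
    · refine ae_of_all _ fun z => ?_
      show |4 * (1 + B z ^ 2)| ≤ 4 * (1 + B z ^ 2)
      rw [abs_of_nonneg (by positivity)]
  have i2 := int_pow_wt hp hp1 hw (hA n)
  have i3 := int_sq_wt hw hAB
  have h1 : ∫ z, |B z| ^ (p + 1) * w z ∂μ ≤ (∫ z, |A n z| ^ (p + 1) * w z ∂μ)
      + ε * (∫ z, 4 * (1 + B z ^ 2) * w z ∂μ) + 1 / ε * Ph μ w (fun z => A n z - B z) := by
    have i4 : Integrable (fun z => |A n z| ^ (p + 1) * w z + ε * (4 * (1 + B z ^ 2) * w z)) μ :=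
      i2.add (i1.const_mul ε)
    unfold Ph
    rw [← integral_const_mul, ← integral_const_mul, ← integral_add i2 (i1.const_mul ε),
      ← integral_add i4 (i3.const_mul (1 / ε))]
    refine integral_mono_ae (int_pow_wt hp hp1 hw hB)
      (i4.add (i3.const_mul (1 / ε))) ?_
    filter_upwards [hw.nn] with z hz
    show |B z| ^ (p + 1) * w z ≤ |A n z| ^ (p + 1) * w z + ε * (4 * (1 + B z ^ 2) * w z)
      + 1 / ε * ((A n z - B z) ^ 2 * w z)
    have := mul_le_mul_of_nonneg_right (pow_diff hp hp1 hε (A n z) (B z)) hz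
    calc _ ≤ _ := this
      _ = _ := by ring
  have h2 := hL n
  linarith

end

end Pool.Agent.Lib.MP_e46711_an.H69
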